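import Pool.Agent.Lib.H53R.Final

set_option autoImplicit false

/-!
Entire curves in varieties with a finite morphism to a product of projective spaces which is weakly
ramified over the union of generic hypersurfaces of arbitrary degrees pulled back from the factors.
-/

open MvPolynomial

namespace Pool.Agent.Drafts53.ProductBranching

/-- `P` holds for all tuples `F s i`, `s = 1, ..., k`, `i = 1, ..., q s`, of forms of degrees `d s i` in
`n s + 1` variables outside a proper algebraic subset: there is a polynomial `Θ` in the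
coefficients, not vanishing at all these tuples, such that `P` holds for the tuples at which `Θ` does
not vanish. -/
def ForGenericForms {k : ℕ} (n q : Fin k → ℕ) (d : (s : Fin k) → Fin (q s) → ℕ)
    (P : ((s : Fin k) → Fin (q s) → MvPolynomial (Fin (n s + 1)) ℂ) → Prop) : Prop :=
  ∃ Θ : MvPolynomial (Σ s : Fin k, Fin (q s) × (Fin (n s + 1) →₀ ℕ)) ℂ,
    (∃ F : (s : Fin k) → Fin (q s) → MvPolynomial (Fin (n s + 1)) ℂ,
      (∀ s i, (F s i).IsHomogeneous (d s i)) ∧
      eval (fun p => coeff p.2.2 (F p.1 p.2.1)) Θ ≠ 0) ∧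
    ∀ F : (s : Fin k) → Fin (q s) → MvPolynomial (Fin (n s + 1)) ℂ,
      (∀ s i, (F s i).IsHomogeneous (d s i)) →
      eval (fun p => coeff p.2.2 (F p.1 p.2.1)) Θ ≠ 0 → P F

/-- The action of `(ℂˣ)ᵏ`; the `s`-th factor acts with the weights `w s`. -/
def action {k m : ℕ} (w : Fin k → Fin m → ℕ) (t : Fin k → ℂ) (x : Fin m → ℂ) : Fin m → ℂ :=
  fun i => (∏ s, t s ^ w s i) * x i

/-- The zeros of `J` at which none of the families `f s` vanishes. -/
def cone {k m : ℕ} {n : Fin k → ℕ} (J : Ideal (MvPolynomial (Fin m) ℂ))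
    (f : (s : Fin k) → Fin (n s + 1) → MvPolynomial (Fin m) ℂ) : Set (Fin m → ℂ) :=
  {x | (∀ F ∈ J, eval x F = 0) ∧ ∀ s, ∃ j, eval x (f s j) ≠ 0}

/-- `X = cone J f / (ℂˣ)ᵏ` is a projective variety (`J` is a prime ideal, homogeneous for all the
gradings `w s`, and `(ℂˣ)ᵏ` acts freely on the cone), and the forms `f s j`, `j = 0, ..., n s`, of
degree `D s ≥ 1` for the grading `w s` and of degree `0` for the other gradings, define
a finite morphism `f = (f 1, ..., f k)` from `X` to `ℙ^(n 1) × ... × ℙ^(n k)` (they have no common zero on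
the zeros of `J` except `0`).  Every projective variety with a finite morphism to
`ℙ^(n 1) × ... × ℙ^(n k)` (not necessarily surjective) has such a description, with
`D s = 1`; for `k = 1` these are the projective varieties in weighted projective spaces. -/
structure IsFiniteOverProduct {k m : ℕ} (n : Fin k → ℕ) (w : Fin k → Fin m → ℕ)
    (J : Ideal (MvPolynomial (Fin m) ℂ)) (D : Fin k → ℕ)
    (f : (s : Fin k) → Fin (n s + 1) → MvPolynomial (Fin m) ℂ) : Prop where
  weights : ∀ i, ∃ s, 1 ≤ w s i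
  prime : J.IsPrime
  multihomogeneous : ∀ s, ∀ F ∈ J, ∀ d, weightedHomogeneousComponent (w s) d F ∈ J
  nonempty : (cone J f).Nonempty
  free : ∀ x ∈ cone J f, ∀ t : Fin k → ℂ, action w t x = x → t = 1
  pos : ∀ s, 1 ≤ D s
  homogeneous : ∀ s j s', (f s j).IsWeightedHomogeneous (w s') (if s' = s then D s else 0)
  finite : ∀ x : Fin m → ℂ, (∀ F ∈ J, eval x F = 0) → (∀ s j, eval x (f s j) = 0) → x = 0

/-- In the local ring at `x` of the cone over `X`, the form `R` lies in the `a`-th power of the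
maximal ideal. -/
def MultiplicityAtLeast {m : ℕ} (J : Ideal (MvPolynomial (Fin m) ℂ)) (x : Fin m → ℂ) (a : ℕ)
    (R : MvPolynomial (Fin m) ℂ) : Prop :=
  ∃ S : MvPolynomial (Fin m) ℂ, eval x S ≠ 0 ∧ S * R ∈ J ⊔ RingHom.ker (eval x) ^ a

/-- `u` gives an entire curve in `X / (ℂˣ)ᵏ`: a nonconstant holomorphic map from `ℂ`. (The action on
`X` is free, so all entire curves lift to `X`.) -/
structure IsEntireCurve {k m : ℕ} (w : Fin k → Fin m → ℕ) (X : Set (Fin m → ℂ)) (u : ℂ → Fin m → ℂ) :
    Prop where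
  holomorphic : ∀ i, Differentiable ℂ fun z => u z i
  mem : ∀ z, u z ∈ X
  nonconstant : ∃ z z', ∀ t : Fin k → ℂ, u z' ≠ action w t (u z)

/-- A proper closed subset of `X / (ℂˣ)ᵏ` contains all entire curves. -/
def PseudoBrody {k m : ℕ} (w : Fin k → Fin m → ℕ) (X : Set (Fin m → ℂ)) : Prop :=
  ∃ T : Set (MvPolynomial (Fin m) ℂ),
    (∀ g ∈ T, ∃ d : Fin k → ℕ, ∀ s, g.IsWeightedHomogeneous (w s) (d s)) ∧
    (∃ x ∈ X, ∃ g ∈ T, eval x g ≠ 0) ∧
    ∀ u, IsEntireCurve w X u → ∀ z, ∀ g ∈ T, eval (u z) g = 0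

/-- For `n 1, ..., n k ≥ 1` and `0 < ε < 1` there is a `D₀` such that the following holds for all types
`(d s i)`, `d s i ≥ 1`, with `d s 1 + ... + d s (q s) ≥ D₀` for every `s`, and the generic forms `F s i` of
degree `d s i` on `ℙ^(n s)`.  Let `f : X → ℙ^(n 1) × ... × ℙ^(n k)` be any finite morphism from a projective
variety, given by forms of degrees `D s`, and let `R` be a form on `X`, not vanishing identically on
`X`, of degree at most `e (1 - ε) (∑ i, d s i) D s` for the `s`-th grading, `s = 1, ..., k`, where `e ≥ 1`.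

(1) All entire curves `u` in `X` for which `R (u)` vanishes to order at least `e` at all points where
`u` meets one of the `F s i (f s) = 0` lie in `R = 0` (at points where `u` meets several of them, too,
only order `e` is required).

(2) Hence, if `R` has multiplicity at least `e` at all points of `X` over the union of the `F s i = 0`
(over their intersections, too, only `e` is required), then all entire curves in `X` lie in `R = 0`,
and `X` is pseudo-Brody hyperbolic.

Examples.  For (2) with `e = 2`, `R = ∏ F s i (f s)`, `ε = 1 / 2`: `X` is pseudo-Brody hyperbolic if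
`∏ F s i (f s)` has multiplicity at least `2` at all its zeros on `X`; at points of `X` over the
intersections of the hypersurfaces this is always so, elsewhere it says that `X` is ramified (or
suitably singular) over `F s i = 0`.  So for the covers `z ^ e = ∏ F s i (f s)`, `e ≥ 2`, of all
projective varieties `Y` with a finite morphism `f` to a product of projective spaces, that is,
branched along generic members of base point free linear systems on `Y` (which together
define a finite morphism); and for the quotients `(C 1 × ... × C k) / G`, `k ≥ 2`, of products of curves by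
a finite group which acts faithfully on every `C s` with `C s / G = ℙ¹` and generic branch points, at
least `D₀` of them for every `s`.  For `k = 1`: covers of projective space which are ramified over
generic hypersurfaces of all types.

The proof rests on a second main theorem, `smtTypesP` in `Lib/H53R/Final.lean`: all tuples of nonconstant
entire curves `y s` in `ℙ^(n s)` contained in none of the `F s i = 0` satisfy
`(1 - ε) ∑ s, (∑ i, d s i) T_(y s)(r) ≤ N₁(r, ∏ F s i (y s)) + C log r`, every point being counted once. -/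
theorem result (k : ℕ) (n : Fin k → ℕ) (hn : ∀ s, 1 ≤ n s) (ε : ℝ) (hε : 0 < ε) (hε1 : ε < 1) :
    ∃ D₀ : ℕ, ∀ (q : Fin k → ℕ) (d : (s : Fin k) → Fin (q s) → ℕ), (∀ s i, 1 ≤ d s i) →
      (∀ s, D₀ ≤ ∑ i, d s i) →
      ForGenericForms n q d fun F =>
        ∀ (m : ℕ) (w : Fin k → Fin m → ℕ) (J : Ideal (MvPolynomial (Fin m) ℂ)) (D : Fin k → ℕ)
          (f : (s : Fin k) → Fin (n s + 1) → MvPolynomial (Fin m) ℂ),
          IsFiniteOverProduct n w J D f →
          ∀ (e : ℕ) (a : Fin k → ℕ) (R : MvPolynomial (Fin m) ℂ), 1 ≤ e →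
            (∀ s, R.IsWeightedHomogeneous (w s) (a s)) → R ∉ J →
            (∀ s, (a s : ℝ) ≤ e * ((1 - ε) * (∑ i, d s i : ℕ) * D s)) →
            (∀ u, IsEntireCurve w (cone J f) u →
              (∀ z, (∃ s i, eval (fun j => eval (u z) (f s j)) (F s i) = 0) →
                (e : ℕ∞) ≤ analyticOrderAt (fun z => eval (u z) R) z) →
              ∀ z, eval (u z) R = 0) ∧
            ((∀ x ∈ cone J f, (∃ s i, eval (fun j => eval x (f s j)) (F s i) = 0) →
                MultiplicityAtLeast J x e R) →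
              (∀ u, IsEntireCurve w (cone J f) u → ∀ z, eval (u z) R = 0) ∧
              PseudoBrody w (cone J f)) := by
  obtain ⟨D₀, h⟩ := Pool.Agent.H53R.smt_subsets Pool.Agent.H53R.smtTypesP n hn (ε / 2)
    (by positivity) (by linarith)
  refine ⟨max D₀ 1, fun q d hd hD => ?_⟩
  obtain ⟨Θ, hΘ, hΘ'⟩ := h q d hd fun s => (le_max_left _ _).trans (hD s)
  refine ⟨Θ, hΘ, fun F hF hF0 => ?_⟩
  have hsmt := hΘ' F hF hF0
  intro m w J D f hJ e a R he hR hRJ ha
  have hcov : Pool.Agent.H53R.CovP w J D f :=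
    ⟨hJ.weights, hJ.multihomogeneous, hJ.pos, hJ.homogeneous, hJ.finite⟩
  have hprod : ∀ s (v : Fin (n s + 1) → ℂ), eval v (∏ i, F s i) = ∏ i, eval v (F s i) :=
    fun s v => map_prod _ _ _
  have hdd : ∀ s, (1 : ℝ) ≤ (∑ i, d s i : ℕ) := fun s => by
    exact_mod_cast (le_max_right _ _).trans (hD s)
  have hκ : ∀ s, (1 - ε) * (∑ i, d s i : ℕ) < (1 - ε / 2) * ((∑ i, d s i : ℕ) : ℝ) := by
    intro s
    have := hdd s
    nlinarith
  have hcurve : ∀ u, IsEntireCurve w (cone J f) u →
      (∀ z, (∃ s i, eval (fun j => eval (u z) (f s j)) (F s i) = 0) →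
        (e : ℕ∞) ≤ analyticOrderAt (fun z => eval (u z) R) z) → ∀ z, eval (u z) R = 0 := by
    intro u hu hord z
    refine Pool.Agent.H53R.cov_eq_zeroP hcov he (fun s => ∑ i, d s i)
      (fun s => (1 - ε) * (∑ i, d s i : ℕ)) hκ (fun s => ∏ i, F s i) ?_ hR ha hu.holomorphic
      hu.mem ?_ hu.nonconstant z
    · intro S y hy hnc hy0
      obtain ⟨C, E, hE, h1⟩ := hsmt S y hy hnc (fun s hs i => by
        obtain ⟨z, hz⟩ := hy0 s hs
        rw [hprod] at hz
        exact ⟨z, fun h0 => hz (Finset.prod_eq_zero (Finset.mem_univ i) h0)⟩)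
      refine ⟨C, E, hE, fun r hr hrE => ?_⟩
      have h2 := h1 r hr hrE
      simp only [hprod]
      exact h2
    · intro z hz
      obtain ⟨s, hs⟩ := hz
      rw [hprod, Finset.prod_eq_zero_iff] at hs
      obtain ⟨i, -, hi⟩ := hs
      exact hord z ⟨s, i, hi⟩
  refine ⟨hcurve, fun hmult => ?_⟩
  have hzero : ∀ s j, eval (0 : Fin m → ℂ) (f s j) = 0 := by
    intro s j
    have h1 := Pool.Agent.H53R.eval_actP (hJ.homogeneous s j) (fun _ => (0 : ℂ)) 0
    have h2 : ∏ s', (0 : ℂ) ^ (if s' = s then D s else 0) = 0 :=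
      Finset.prod_eq_zero (Finset.mem_univ s) (by
        rw [if_pos rfl]
        exact zero_pow (by have := hJ.pos s; omega))
    rw [h2, zero_mul] at h1
    have h3 : Pool.Agent.H53R.actP w (fun _ => (0 : ℂ)) 0 = 0 := by
      funext i
      simp [Pool.Agent.H53R.actP]
    rwa [h3] at h1
  have hne : ∀ u, IsEntireCurve w (cone J f) u → ∀ z, u z ≠ 0 := by
    intro u hu z h0
    rcases Nat.eq_zero_or_pos k with hk | hk
    · obtain ⟨z₁, z₂, h1⟩ := hu.nonconstant
      refine h1 (fun _ => 1) (funext fun i => ?_)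
      obtain ⟨s, -⟩ := hJ.weights i
      exact absurd s.2 (by omega)
    · obtain ⟨j, hj⟩ := (hu.mem z).2 ⟨0, hk⟩
      rw [h0] at hj
      exact hj (hzero _ j)
  have hmain : ∀ u, IsEntireCurve w (cone J f) u → ∀ z, eval (u z) R = 0 := by
    intro u hu
    refine hcurve u hu fun z hz => ?_
    obtain ⟨S, hS, hSR⟩ := hmult (u z) (hu.mem z) hz
    exact Pool.Agent.H89T.t3_order ⟨hu.holomorphic, hne u hu⟩ (fun z => (hu.mem z).1) hS hSR
  have hpt : ∃ x ∈ cone J f, eval x R ≠ 0 := by
    obtain ⟨x₀, hx₀⟩ := hJ.nonempty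
    choose j hj using hx₀.2
    have hfJ : ∏ s, f s (j s) ∉ J := by
      intro h0
      have h1 := hx₀.1 _ h0
      rw [map_prod, Finset.prod_eq_zero_iff] at h1
      obtain ⟨s, -, hs⟩ := h1
      exact hj s hs
    have hRf : R * ∏ s, f s (j s) ∉ J := fun h => (hJ.prime.mem_or_mem h).elim hRJ hfJ
    obtain ⟨x, hxJ, hx⟩ := Pool.Agent.H89T.t3_null J hJ.prime _ hRf
    rw [map_mul, map_prod] at hx
    refine ⟨x, ⟨hxJ, fun s => ⟨j s, ?_⟩⟩, left_ne_zero_of_mul hx⟩
    exact Finset.prod_ne_zero_iff.1 (right_ne_zero_of_mul hx) s (Finset.mem_univ s)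
  obtain ⟨x, hx, hxR⟩ := hpt
  refine ⟨hmain, ⟨{R}, ?_, ⟨x, hx, R, rfl, hxR⟩, ?_⟩⟩
  · rintro _ rfl
    exact ⟨a, hR⟩
  · rintro u hu z _ rfl
    exact hmain u hu z

end Pool.Agent.Drafts53.ProductBranching
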